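import Mathlib

/-!
# A full shift of nested pieces, and buried components (topological part)

`g : X → X` is continuous and open, `F` is an open set with `g x ∈ F ↔ x ∈ F`; `X` is the disjoint
union of two connected open sides `D true`, `D false` and a closed set `γ ⊆ H`, where `H ⊆ F` is a
component of `F` and `g` maps `γ` into `γ` and `H ∩ D e` into `D e`.
-/

set_option autoImplicit false
set_option linter.unusedSectionVars false
set_option linter.unusedVariables false

open Set Filter Topology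

namespace Pool.Agent.K7.H83.HR

variable {X : Type} [TopologicalSpace X] [T2Space X] [CompactSpace X] [LocallyConnectedSpace X]

theorem comp_closed {S : Set X} (hS : IsOpen S) {x z : X} (hz : z ∈ closure (connectedComponentIn S x))
    (hzS : z ∈ S) : z ∈ connectedComponentIn S x := by
  have h1 : IsOpen (connectedComponentIn S z) := hS.connectedComponentIn
  have h2 : z ∈ connectedComponentIn S z := mem_connectedComponentIn hzS
  obtain ⟨w, hw1, hw2⟩ := mem_closure_iff.1 hz _ h1 h2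
  rw [connectedComponentIn_eq hw2, ← connectedComponentIn_eq hw1]
  exact h2

/-- A component of the preimage of a connected open set under a continuous open map of a compact
space is mapped onto it. -/
theorem image_comp {G : X → X} (hGc : Continuous G) (hGo : IsOpenMap G) {D : Set X}
    (hDo : IsOpen D) (hDp : IsPreconnected D) {x : X} (hx : G x ∈ D) :
    D ⊆ G '' connectedComponentIn (G ⁻¹' D) x := by
  set C := connectedComponentIn (G ⁻¹' D) x with hC
  have hpo : IsOpen (G ⁻¹' D) := hDo.preimage hGc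
  have hCo : IsOpen C := hpo.connectedComponentIn
  have hxC : x ∈ C := mem_connectedComponentIn hx
  have hcl : IsClosed (G '' closure C) := (isClosed_closure.isCompact.image hGc).isClosed
  intro y hy
  by_contra hcon
  have hcov : D ⊆ G '' C ∪ (G '' closure C)ᶜ := by
    intro w hw
    by_cases hw' : w ∈ G '' closure C
    · left
      obtain ⟨z, hz, rfl⟩ := hw'
      exact ⟨z, comp_closed hpo hz hw, rfl⟩
    · exact Or.inr hw'
  obtain ⟨w, -, hw1, hw2⟩ := hDp _ _ (hGo _ hCo) hcl.isOpen_compl hcov ⟨G x, hx, ⟨x, hxC, rfl⟩⟩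
    ⟨y, hy, by
      rcases hcov hy with h | h
      · exact absurd h hcon
      · exact h⟩
  exact hw2 (image_mono subset_closure hw1)

theorem frontier_meets {U E : Set X} (hU : IsPreconnected U) (hEo : IsOpen E)
    (h1 : (U ∩ E).Nonempty) (h2 : ¬ U ⊆ E) : ∃ u ∈ U, u ∈ closure E ∧ u ∉ E := by
  by_contra hcon
  push Not at hcon
  obtain ⟨y, hy, hyE⟩ := Set.not_subset.1 h2
  have hcov : U ⊆ E ∪ (closure E)ᶜ := by
    intro z hz
    by_cases hz' : z ∈ closure E
    · exact Or.inl (hcon z hz hz')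
    · exact Or.inr hz'
  obtain ⟨w, -, hw1, hw2⟩ := hU _ _ hEo isClosed_closure.isOpen_compl hcov h1
    ⟨y, hy, fun h => hyE (hcon y hy h)⟩
  exact hw2 (subset_closure hw1)

/-- The topological data of an invariant curve in a rotation domain. -/
structure Data (g : X → X) (F γ H : Set X) (D : Bool → Set X) : Prop where
  cont : Continuous g
  opn : IsOpenMap g
  Fo : IsOpen F
  Ff : ∀ x, x ∈ F → g x ∈ F
  Fb : ∀ x, g x ∈ F → x ∈ F
  Do : ∀ e, IsOpen (D e)
  Dp : ∀ e, IsPreconnected (D e)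
  Dd : ∀ e, Disjoint (D e) (D !e)
  cov : ∀ x, x ∉ γ → ∃ e, x ∈ D e
  Dγ : ∀ e, Disjoint (D e) γ
  gγ : ∀ x ∈ γ, g x ∈ γ
  γH : γ ⊆ H
  Ho : IsOpen H
  HF : H ⊆ F
  Hm : ∀ T : Set X, IsPreconnected T → T ⊆ F → (T ∩ H).Nonempty → T ⊆ H
  gH : ∀ x ∈ H, g x ∈ H
  gc : ∀ e, ∀ x ∈ H ∩ D e, g x ∈ D e
  jul : ∀ e, ∃ x, x ∉ F ∧ x ∈ D e ∧ x ∈ closure H
  montel : ∀ e, ∀ V : Set X, IsOpen V → ∀ x ∈ V, x ∉ F → ∃ n, ∃ y ∈ V, g^[n] y ∈ D e

variable {g : X → X} {F γ H : Set X} {D : Bool → Set X}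

namespace Data

theorem itF (h : Data g F γ H D) (n : ℕ) {x : X} : g^[n] x ∈ F ↔ x ∈ F := by
  induction n with
  | zero => exact Iff.rfl
  | succ n ih =>
    rw [Function.iterate_succ_apply', ← ih]
    exact ⟨h.Fb _, h.Ff _⟩

theorem itγ (h : Data g F γ H D) (n : ℕ) {x : X} (hx : x ∈ γ) : g^[n] x ∈ γ := by
  induction n with
  | zero => exact hx
  | succ n ih => rw [Function.iterate_succ_apply']; exact h.gγ _ ih

theorem itH (h : Data g F γ H D) (n : ℕ) {x : X} (hx : x ∈ H) : g^[n] x ∈ H := by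
  induction n with
  | zero => exact hx
  | succ n ih => rw [Function.iterate_succ_apply']; exact h.gH _ ih

theorem itc (h : Data g F γ H D) (n : ℕ) {e : Bool} {x : X} (hx : x ∈ H) (hxD : x ∈ D e) :
    g^[n] x ∈ D e := by
  induction n with
  | zero => exact hxD
  | succ n ih =>
    rw [Function.iterate_succ_apply']
    exact h.gc e _ ⟨h.itH n hx, ih⟩

theorem Dd' (h : Data g F γ H D) {e : Bool} {x : X} (h1 : x ∈ D e) (h2 : x ∈ D !e) : False :=
  Set.disjoint_left.1 (h.Dd e) h1 h2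

theorem Dn (h : Data g F γ H D) {e : Bool} {x : X} (h1 : x ∈ D e) (h2 : x ∈ γ) : False :=
  Set.disjoint_left.1 (h.Dγ e) h1 h2

theorem cases (h : Data g F γ H D) (e : Bool) {x : X} (hx : x ∉ γ) : x ∈ D e ∨ x ∈ D !e := by
  obtain ⟨e', he'⟩ := h.cov x hx
  rcases Bool.eq_or_eq_not e' e with h1 | h1
  · exact Or.inl (h1 ▸ he')
  · exact Or.inr (h1 ▸ he')

theorem closure_D (h : Data g F γ H D) (e : Bool) {x : X} (hx : x ∈ closure (D e)) :
    x ∈ D e ∨ x ∈ γ := by
  by_contra hcon
  rw [not_or] at hcon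
  rcases h.cases e hcon.2 with h1 | h1
  · exact hcon.1 h1
  · obtain ⟨y, hy1, hy2⟩ := mem_closure_iff.1 hx _ (h.Do _) h1
    exact h.Dd' hy2 hy1

/-- A preconnected set none of whose points is mapped to the curve and which has a point mapped to
the side `e` is mapped to the side `e`. -/
theorem side_of (h : Data g F γ H D) (n : ℕ) {e : Bool} {T : Set X} (hT : IsPreconnected T)
    (hγ : ∀ x ∈ T, g^[n] x ∉ γ) {x : X} (hx : x ∈ T) (hxD : g^[n] x ∈ D e) :
    ∀ y ∈ T, g^[n] y ∈ D e := by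
  intro y hy
  by_contra hcon
  have hy' : g^[n] y ∈ D !e := (h.cases e (hγ y hy)).resolve_left hcon
  have hc := h.cont.iterate n
  obtain ⟨w, -, hw1, hw2⟩ := hT _ _ ((h.Do e).preimage hc) ((h.Do !e).preimage hc)
    (fun z hz => h.cases e (hγ z hz)) ⟨x, hx, hxD⟩ ⟨y, hy, hy'⟩
  exact h.Dd' hw1 hw2

/-- A piece: a component of a preimage of a side. -/
abbrev piece (g : X → X) (D : Bool → Set X) (e : Bool) (n : ℕ) (x : X) : Set X :=
  connectedComponentIn (g^[n] ⁻¹' D e) x

theorem piece_open (h : Data g F γ H D) (e : Bool) (n : ℕ) (x : X) : IsOpen (piece g D e n x) :=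
  ((h.Do e).preimage (h.cont.iterate n)).connectedComponentIn

theorem piece_pre (e : Bool) (n : ℕ) (x : X) : IsPreconnected (piece g D e n x) :=
  isPreconnected_connectedComponentIn

theorem piece_sub {e : Bool} {n : ℕ} {x y : X} (hy : y ∈ piece g D e n x) : g^[n] y ∈ D e :=
  connectedComponentIn_subset (g^[n] ⁻¹' D e) x hy

theorem opn_it (h : Data g F γ H D) (n : ℕ) : IsOpenMap g^[n] := by
  induction n with
  | zero => exact IsOpenMap.id
  | succ n ih => rw [Function.iterate_succ']; exact h.opn.comp ih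

theorem piece_onto (h : Data g F γ H D) {e : Bool} {n : ℕ} {x : X} (hx : g^[n] x ∈ D e) {y : X}
    (hy : y ∈ D e) : ∃ z ∈ piece g D e n x, g^[n] z = y :=
  image_comp (h.cont.iterate n) (h.opn_it n) (h.Do e) (h.Dp e) hx hy

/-- Maximality of pieces. -/
theorem sub_piece {e : Bool} {n : ℕ} {x y : X} {T : Set X} (hT : IsPreconnected T)
    (hTs : ∀ z ∈ T, g^[n] z ∈ D e) (hy : y ∈ T) (hyx : y ∈ piece g D e n x) :
    T ⊆ piece g D e n x := by
  rw [piece, connectedComponentIn_eq hyx]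
  exact hT.subset_connectedComponentIn hy hTs

theorem piece_closed (h : Data g F γ H D) {e : Bool} {n : ℕ} {x z : X}
    (hz : z ∈ closure (piece g D e n x)) (hzD : g^[n] z ∈ D e) : z ∈ piece g D e n x :=
  comp_closed ((h.Do e).preimage (h.cont.iterate n)) hz hzD

/-- Boundary points of pieces are mapped to the curve. -/
theorem piece_frontier (h : Data g F γ H D) {e : Bool} {n : ℕ} {x z : X}
    (hz : z ∈ closure (piece g D e n x)) (hz' : z ∉ piece g D e n x) : g^[n] z ∈ γ := by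
  have h1 : g^[n] z ∈ closure (D e) := by
    have h2 : g^[n] z ∈ closure (g^[n] '' piece g D e n x) :=
      image_closure_subset_closure_image (h.cont.iterate n) ⟨z, hz, rfl⟩
    refine closure_mono ?_ h2
    rintro _ ⟨y, hy, rfl⟩
    exact piece_sub hy
  rcases h.closure_D e h1 with h2 | h2
  · exact absurd (h.piece_closed hz h2) hz'
  · exact h2

/-- Step 1. -/
theorem reach (h : Data g F γ H D) (e : Bool) {V : Set X} (hV : IsOpen V) {x : X} (hx : x ∈ V)
    (hxF : x ∉ F) (n₀ : ℕ) : ∃ n, n₀ ≤ n ∧ ∃ y ∈ V, g^[n] y ∈ D e := by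
  obtain ⟨n, y, hy, hyn⟩ := h.montel e (g^[n₀] '' V) (h.opn_it n₀ _ hV) (g^[n₀] x) ⟨x, hx, rfl⟩
    (fun hh => hxF ((h.itF n₀).1 hh))
  obtain ⟨y', hy', rfl⟩ := hy
  refine ⟨n + n₀, Nat.le_add_left _ _, y', hy', ?_⟩
  rw [Function.iterate_add_apply]
  exact hyn

/-- Step 2: the pieces of the other type do not meet `H`. -/
theorem cross_disj (h : Data g F γ H D) {e : Bool} {n : ℕ} {y : X} (hyD : y ∈ D e)
    (hyn : g^[n] y ∈ D !e) : (∀ z ∈ piece g D (!e) n y, z ∈ D e) ∧
      (∀ z ∈ piece g D (!e) n y, z ∉ H) ∧ (∀ z ∈ closure (piece g D (!e) n y), z ∈ D e) := by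
  have hyP : y ∈ piece g D (!e) n y := mem_connectedComponentIn hyn
  have h1 : ∀ z ∈ piece g D (!e) n y, z ∈ D e := by
    have := h.side_of 0 (T := piece g D (!e) n y) (e := e) (piece_pre _ _ _) ?_ hyP hyD
    · exact this
    · intro x hx hxγ
      exact h.Dn (piece_sub hx) (h.itγ n hxγ)
  have h2 : ∀ z ∈ piece g D (!e) n y, z ∉ H := by
    intro z hz hzH
    exact h.Dd' (h.itc n hzH (h1 z hz)) (piece_sub hz)
  refine ⟨h1, h2, ?_⟩
  intro z hz
  have h3 : z ∈ closure (D e) := closure_mono h1 hz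
  rcases h.closure_D e h3 with h4 | h4
  · exact h4
  · exfalso
    obtain ⟨w, hw1, hw2⟩ := mem_closure_iff.1 hz _ h.Ho (h.γH h4)
    exact h2 w hw2 hw1

/-- Step 3: two disjoint crossing pieces. -/
theorem two_cross (h : Data g F γ H D) (e : Bool) : ∃ (n : Bool → ℕ) (y : Bool → X),
    (∀ s, y s ∈ D e) ∧ (∀ s, g^[n s] (y s) ∈ D !e) ∧
      Disjoint (piece g D (!e) (n true) (y true)) (piece g D (!e) (n false) (y false)) := by
  obtain ⟨x, hxF, hxD, hxH⟩ := h.jul e
  obtain ⟨n₁, -, y₁, hy₁, hyn₁⟩ := h.reach (!e) (h.Do e) hxD hxF 0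
  obtain ⟨ha, hb, hc⟩ := h.cross_disj hy₁ hyn₁
  set P₁ := piece g D (!e) n₁ y₁ with hP₁
  have hxP : x ∉ closure P₁ := by
    intro hx
    by_cases hx' : x ∈ P₁
    · obtain ⟨w, hw1, hw2⟩ := mem_closure_iff.1 hxH _ (h.piece_open _ _ _) hx'
      exact hb w hw1 hw2
    · have h1 := h.piece_frontier hx hx'
      exact hxF ((h.itF n₁).1 (h.HF (h.γH h1)))
  obtain ⟨n₂, hn₂, y₂, hy₂, hyn₂⟩ := h.reach (!e) (V := D e ∩ (closure P₁)ᶜ)
    ((h.Do e).inter isClosed_closure.isOpen_compl) ⟨hxD, hxP⟩ hxF n₁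
  refine ⟨fun s => if s then n₁ else n₂, fun s => if s then y₁ else y₂, ?_, ?_, ?_⟩
  · intro s; cases s
    · exact hy₂.1
    · exact hy₁
  · intro s; cases s
    · exact hyn₂
    · exact hyn₁
  · simp only [if_true, Bool.false_eq_true, if_false]
    rw [Set.disjoint_left]
    intro w hw1 hw2
    apply hy₂.2
    apply subset_closure
    have hγ : ∀ z ∈ piece g D (!e) n₂ y₂, g^[n₁] z ∉ γ := by
      intro z hz hzγ
      have h1 := h.itγ (n₂ - n₁) hzγ
      rw [← Function.iterate_add_apply, Nat.sub_add_cancel hn₂] at h1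
      exact h.Dn (piece_sub hz) h1
    have h2 := h.side_of n₁ (e := !e) (piece_pre _ _ _) hγ hw2 (piece_sub hw1)
    exact sub_piece (piece_pre _ _ _) h2 hw2 hw1 (mem_connectedComponentIn hyn₂)

/-- Step 4: two disjoint return pieces. -/
theorem returns (h : Data g F γ H D) (e : Bool) : ∃ (n : Bool → ℕ) (y : Bool → X),
    (∀ s, g^[n s] (y s) ∈ D e) ∧ (∀ s, ∀ z ∈ closure (piece g D e (n s) (y s)), z ∈ D e) ∧
      Disjoint (piece g D e (n true) (y true)) (piece g D e (n false) (y false)) := by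
  obtain ⟨n, y, hy, hyn, hdis⟩ := h.two_cross e
  obtain ⟨x, hxF, hxD, -⟩ := h.jul (!e)
  obtain ⟨m, -, w, hw, hwm⟩ := h.reach e (h.Do (!e)) hxD hxF 0
  have hz : ∀ s, ∃ z ∈ piece g D (!e) (n s) (y s), g^[n s] z = w := fun s =>
    h.piece_onto (hyn s) hw
  choose z hzp hzw using hz
  have key : ∀ s, g^[m + n s] (z s) ∈ D e := by
    intro s
    rw [Function.iterate_add_apply, hzw s]
    exact hwm
  have hsub : ∀ s, piece g D e (m + n s) (z s) ⊆ piece g D (!e) (n s) (y s) := by
    intro s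
    have hzs : z s ∈ piece g D e (m + n s) (z s) := mem_connectedComponentIn (key s)
    refine sub_piece (piece_pre _ _ _) ?_ hzs (hzp s)
    refine h.side_of (n s) (piece_pre _ _ _) ?_ hzs (by rw [hzw s]; exact hw)
    intro v hv hvγ
    have h1 := h.itγ m hvγ
    rw [← Function.iterate_add_apply] at h1
    exact h.Dn (piece_sub hv) h1
  refine ⟨fun s => m + n s, z, key, ?_, ?_⟩
  · intro s v hv
    exact (h.cross_disj (hy s) (hyn s)).2.2 v (closure_mono (hsub s) hv)
  · exact hdis.mono (hsub _) (hsub _)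

end Data

/-- Times of the itinerary. -/
def tm (n : Bool → ℕ) (ω : ℕ → Bool) (i : ℕ) : ℕ := ∑ j ∈ Finset.range i, n (ω j)

theorem tm_succ (n : Bool → ℕ) (ω : ℕ → Bool) (i : ℕ) : tm n ω (i + 1) = n (ω i) + tm n ω i := by
  rw [tm, Finset.sum_range_succ, add_comm]; rfl

/-- Points with a given itinerary. -/
def itin (g : X → X) (n : Bool → ℕ) (R : Bool → Set X) (ω : ℕ → Bool) : Set X :=
  {x | ∀ i, g^[tm n ω i] x ∈ R (ω i)}

theorem tm_congr (n : Bool → ℕ) {ω ω' : ℕ → Bool} {i : ℕ} (h : ∀ j < i, ω j = ω' j) :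
    tm n ω i = tm n ω' i :=
  Finset.sum_congr rfl fun j hj => by rw [h j (Finset.mem_range.1 hj)]

theorem itin_disjoint {n : Bool → ℕ} {R : Bool → Set X} (hR : Disjoint (R true) (R false))
    {ω ω' : ℕ → Bool} (hne : ω ≠ ω') : Disjoint (itin g n R ω) (itin g n R ω') := by
  classical
  have hex : ∃ i, ω i ≠ ω' i := Function.ne_iff.1 hne
  have h1 := Nat.find_spec hex
  have h2 : ∀ j < Nat.find hex, ω j = ω' j := fun j hj => by
    have := Nat.find_min hex hj
    exact not_not.1 this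
  rw [Set.disjoint_left]
  intro x hx hx'
  have h3 := hx (Nat.find hex)
  have h4 := hx' (Nat.find hex)
  rw [← tm_congr n h2] at h4
  revert h1 h3 h4
  generalize ω (Nat.find hex) = a
  generalize ω' (Nat.find hex) = b
  intro h1 h3 h4
  cases a <;> cases b
  · exact h1 rfl
  · exact Set.disjoint_left.1 hR h4 h3
  · exact Set.disjoint_left.1 hR h3 h4
  · exact h1 rfl

namespace Data

/-- Step 5: every itinerary is realised. -/
theorem itin_nonempty (h : Data g F γ H D) {e : Bool} {n : Bool → ℕ} {y : Bool → X}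
    (hyn : ∀ s, g^[n s] (y s) ∈ D e)
    (hcl : ∀ s, ∀ z ∈ closure (piece g D e (n s) (y s)), z ∈ D e) (ω : ℕ → Bool) :
    (itin g n (fun s => piece g D e (n s) (y s)) ω).Nonempty := by
  set R : Bool → Set X := fun s => piece g D e (n s) (y s) with hR
  have hfin : ∀ k : ℕ, ∀ v ∈ D e, ∃ x, (∀ i < k, g^[tm n ω i] x ∈ R (ω i)) ∧ g^[tm n ω k] x = v := by
    intro k
    induction k with
    | zero => intro v _; exact ⟨v, by simp, by simp [tm]⟩
    | succ k ih =>
      intro v hv
      obtain ⟨v', hv', hv'v⟩ := h.piece_onto (hyn (ω k)) hv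
      obtain ⟨x, hx1, hx2⟩ := ih v' (hcl _ _ (subset_closure hv'))
      refine ⟨x, ?_, ?_⟩
      · intro i hi
        rcases Nat.lt_succ_iff_lt_or_eq.1 hi with h1 | h1
        · exact hx1 i h1
        · rw [h1, hx2]; exact hv'
      · rw [tm_succ, Function.iterate_add_apply, hx2, hv'v]
  obtain ⟨v, -, hv, -⟩ := h.jul e
  let C : ℕ → Set X := fun k => {x | ∀ i < k, g^[tm n ω i] x ∈ closure (R (ω i))}
  have hCc : ∀ k, IsClosed (C k) := by
    intro k
    have : C k = ⋂ i, ⋂ (_ : i < k), g^[tm n ω i] ⁻¹' closure (R (ω i)) := by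
      ext x; simp [C]
    rw [this]
    exact isClosed_iInter fun i => isClosed_iInter fun _ => isClosed_closure.preimage (h.cont.iterate _)
  have hne : (⋂ k, C k).Nonempty := by
    apply IsCompact.nonempty_iInter_of_sequence_nonempty_isCompact_isClosed
    · intro k x hx i hi
      exact hx i (Nat.lt_succ_of_lt hi)
    · intro k
      obtain ⟨x, hx, -⟩ := hfin k v hv
      exact ⟨x, fun i hi => subset_closure (hx i hi)⟩
    · exact (hCc 0).isCompact
    · exact hCc
  obtain ⟨x, hx⟩ := hne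
  rw [mem_iInter] at hx
  have hx' : ∀ i, g^[tm n ω i] x ∈ closure (R (ω i)) := fun i => hx (i + 1) i (Nat.lt_succ_self i)
  refine ⟨x, fun i => ?_⟩
  refine h.piece_closed (hx' i) ?_
  have h1 := hcl _ _ (hx' (i + 1))
  rw [tm_succ, Function.iterate_add_apply] at h1
  exact h1

theorem exists_thin [TopologicalSpace.SeparableSpace X] (h : Data g F γ H D) {e : Bool}
    {n : Bool → ℕ} {y : Bool → X} (hyn : ∀ s, g^[n s] (y s) ∈ D e)
    (hcl : ∀ s, ∀ z ∈ closure (piece g D e (n s) (y s)), z ∈ D e)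
    (hd : Disjoint (piece g D e (n true) (y true)) (piece g D e (n false) (y false))) :
    ({ω | ¬ (interior (itin g n (fun s => piece g D e (n s) (y s)) ω)).Nonempty}ᶜ :
      Set (ℕ → Bool)).Countable := by
  set R : Bool → Set X := fun s => piece g D e (n s) (y s) with hR
  have : ({ω | ¬ (interior (itin g n R ω)).Nonempty}ᶜ : Set (ℕ → Bool)) =
      {ω | (interior (itin g n R ω)).Nonempty} := by ext ω; simp
  rw [this]
  refine Set.PairwiseDisjoint.countable_of_nonempty_interior (s := fun ω => itin g n R ω) ?_ ?_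
  · intro ω _ ω' _ hne
    exact itin_disjoint hd hne
  · intro ω hω
    exact hω

/-- Step 6: closures of components of `F` do not meet the thin itineraries. -/
theorem thin_disj (h : Data g F γ H D) {e : Bool} {n : Bool → ℕ} {y : Bool → X}
    (hyn : ∀ s, g^[n s] (y s) ∈ D e)
    (hcl : ∀ s, ∀ z ∈ closure (piece g D e (n s) (y s)), z ∈ D e) {ω : ℕ → Bool}
    (hω : ¬ (interior (itin g n (fun s => piece g D e (n s) (y s)) ω)).Nonempty) {U : Set X}
    (hUo : IsOpen U) (hUp : IsPreconnected U) (hUF : U ⊆ F) {x : X} (hx : x ∈ closure U)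
    (hxi : x ∈ itin g n (fun s => piece g D e (n s) (y s)) ω) : False := by
  set R : Bool → Set X := fun s => piece g D e (n s) (y s) with hR
  have hRD : ∀ s, R s ⊆ D e := fun s z hz => hcl s z (subset_closure hz)
  have hxD : ∀ i, g^[tm n ω i] x ∈ D e := fun i => hRD _ (hxi i)
  set E : ℕ → Set X := fun i => piece g D e (tm n ω i) x with hE
  have hxE : ∀ i, x ∈ E i := fun i => mem_connectedComponentIn (hxD i)
  have hER : ∀ i, ∀ z ∈ E (i + 1), g^[tm n ω i] z ∈ R (ω i) := by
    intro i z hz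
    have h1 : g^[tm n ω i] '' E (i + 1) ⊆ R (ω i) := by
      refine sub_piece ((piece_pre _ _ _).image _ (h.cont.iterate _).continuousOn) ?_
        ⟨x, hxE (i + 1), rfl⟩ (hxi i)
      rintro _ ⟨w, hw, rfl⟩
      have h2 : g^[tm n ω (i + 1)] w ∈ D e := piece_sub hw
      rw [tm_succ, Function.iterate_add_apply] at h2
      exact h2
    exact h1 ⟨z, hz, rfl⟩
  have hEcl : ∀ i, ∀ z ∈ closure (E (i + 1)), g^[tm n ω i] z ∈ D e := by
    intro i z hz
    apply hcl (ω i)
    have h2 : g^[tm n ω i] z ∈ closure (g^[tm n ω i] '' E (i + 1)) :=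
      image_closure_subset_closure_image (h.cont.iterate _) ⟨z, hz, rfl⟩
    refine closure_mono ?_ h2
    rintro _ ⟨w, hw, rfl⟩
    exact hER i w hw
  have hEE : ∀ i, E (i + 1) ⊆ E i := fun i =>
    sub_piece (piece_pre _ _ _) (fun z hz => hRD _ (hER i z hz)) (hxE (i + 1)) (hxE i)
  obtain ⟨k, hk⟩ : ∃ k, ¬ U ⊆ E k := by
    by_contra hcon
    push Not at hcon
    apply hω
    have hne : U.Nonempty := by
      rw [nonempty_iff_ne_empty]
      rintro rfl
      simp at hx
    refine hne.mono (interior_maximal ?_ hUo)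
    intro z hz i
    exact hER i z (hcon (i + 1) hz)
  have hmeet : ∀ i, (U ∩ E i).Nonempty := by
    intro i
    obtain ⟨w, hw1, hw2⟩ := mem_closure_iff.1 hx _ (h.piece_open e (tm n ω i) x) (hxE i)
    exact ⟨w, hw2, hw1⟩
  obtain ⟨u, huU, hu1, hu2⟩ := frontier_meets hUp (h.piece_open _ _ _) (hmeet k) hk
  obtain ⟨v, hvU, hv1, hv2⟩ := frontier_meets hUp (h.piece_open _ _ _) (hmeet (k + 1))
    (fun hh => hk (hh.trans (hEE k)))
  have huγ : g^[tm n ω k] u ∈ γ := h.piece_frontier hu1 hu2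
  have hvγ : g^[tm n ω (k + 1)] v ∈ γ := h.piece_frontier hv1 hv2
  have himg : g^[tm n ω k] '' U ⊆ H := by
    refine h.Hm _ (hUp.image _ (h.cont.iterate _).continuousOn) ?_ ⟨_, ⟨u, huU, rfl⟩, h.γH huγ⟩
    rintro _ ⟨w, hw, rfl⟩
    exact (h.itF _).2 (hUF hw)
  have h3 : g^[n (ω k)] (g^[tm n ω k] v) ∈ D e :=
    h.itc _ (himg ⟨v, hvU, rfl⟩) (hEcl k v hv1)
  rw [tm_succ, Function.iterate_add_apply] at hvγ
  exact h.Dn h3 hvγ

/-- Step 7: the component of the complement of `F`. -/
theorem comp_sub (h : Data g F γ H D) {e : Bool} {n : Bool → ℕ} {y : Bool → X}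
    (hcl : ∀ s, ∀ z ∈ closure (piece g D e (n s) (y s)), z ∈ D e) {ω : ℕ → Bool} {x : X}
    (hxi : x ∈ itin g n (fun s => piece g D e (n s) (y s)) ω) (hxF : x ∉ F) :
    connectedComponentIn Fᶜ x ⊆ itin g n (fun s => piece g D e (n s) (y s)) ω := by
  set R : Bool → Set X := fun s => piece g D e (n s) (y s) with hR
  have hRD : ∀ s, R s ⊆ D e := fun s z hz => hcl s z (subset_closure hz)
  set K := connectedComponentIn Fᶜ x with hK
  have hxK : x ∈ K := mem_connectedComponentIn hxF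
  have hKp : IsPreconnected K := isPreconnected_connectedComponentIn
  have h1 : ∀ i, ∀ z ∈ K, g^[tm n ω i] z ∈ D e := by
    intro i
    refine h.side_of _ hKp ?_ hxK (hRD _ (hxi i))
    intro z hz hzγ
    have h2 : z ∈ Fᶜ := connectedComponentIn_subset _ _ hz
    exact h2 ((h.itF _).1 (h.HF (h.γH hzγ)))
  intro z hz i
  have h3 : g^[tm n ω i] '' K ⊆ R (ω i) := by
    refine sub_piece (hKp.image _ (h.cont.iterate _).continuousOn) ?_ ⟨x, hxK, rfl⟩ (hxi i)
    rintro _ ⟨w, hw, rfl⟩
    have h2 := h1 (i + 1) w hw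
    rw [tm_succ, Function.iterate_add_apply] at h2
    exact h2
  exact h3 ⟨z, hz, rfl⟩

/-- The buried components: the set of the components of the complement of `F` which do not meet
the closure of any connected open subset of `F` is uncountable. -/
theorem buried [TopologicalSpace.SeparableSpace X] (h : Data g F γ H D) :
    ¬ ({K : Set X | (∃ x, x ∉ F ∧ K = connectedComponentIn Fᶜ x) ∧
      ∀ U : Set X, IsOpen U → IsPreconnected U → U ⊆ F → Disjoint K (closure U)}).Countable := by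
  obtain ⟨n, y, hyn, hcl, hd⟩ := h.returns true
  have hcount := h.exists_thin hyn hcl hd
  set R : Bool → Set X := fun s => piece g D true (n s) (y s) with hR
  set Ω : Set (ℕ → Bool) := {ω | ¬ (interior (itin g n R ω)).Nonempty} with hΩ
  have hne : ∀ ω, ∃ x, x ∈ itin g n R ω := fun ω => h.itin_nonempty hyn hcl ω
  choose x hx using hne
  have hdisj : ∀ ω ∈ Ω, ∀ U : Set X, IsOpen U → IsPreconnected U → U ⊆ F →
      ∀ z ∈ itin g n R ω, z ∉ closure U := by
    intro ω hω U hUo hUp hUF z hz hzU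
    exact h.thin_disj hyn hcl hω hUo hUp hUF hzU hz
  have hxF : ∀ ω ∈ Ω, x ω ∉ F := by
    intro ω hω hF
    exact hdisj ω hω (connectedComponentIn F (x ω)) h.Fo.connectedComponentIn
      isPreconnected_connectedComponentIn (connectedComponentIn_subset _ _) _ (hx ω)
      (subset_closure (mem_connectedComponentIn hF))
  intro hc
  have hΩc : Ω.Countable := by
    refine MapsTo.countable_of_injOn (f := fun ω => connectedComponentIn Fᶜ (x ω)) ?_ ?_ hc
    · intro ω hω
      refine ⟨⟨x ω, hxF ω hω, rfl⟩, ?_⟩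
      intro U hUo hUp hUF
      rw [Set.disjoint_left]
      intro z hz
      exact hdisj ω hω U hUo hUp hUF z (h.comp_sub hcl (hx ω) (hxF ω hω) hz)
    · intro ω hω ω' hω' heq
      by_contra hne
      have h1 : x ω ∈ connectedComponentIn Fᶜ (x ω) := mem_connectedComponentIn (hxF ω hω)
      have h2 : x ω ∈ connectedComponentIn Fᶜ (x ω') := by
        have heq' : connectedComponentIn Fᶜ (x ω) = connectedComponentIn Fᶜ (x ω') := heq
        rw [← heq']; exact h1
      exact Set.disjoint_left.1 (itin_disjoint hd hne) (hx ω) (h.comp_sub hcl (hx ω') (hxF ω' hω') h2)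
  have huniv : (univ : Set (ℕ → Bool)).Countable := by
    rw [← Set.union_compl_self Ω]
    exact hΩc.union hcount
  have h1 := Cardinal.mk_le_aleph0_iff.2 (Set.countable_univ_iff.1 huniv)
  rw [Cardinal.mk_pi] at h1
  simp only [Cardinal.mk_fintype, Fintype.card_bool, Nat.cast_ofNat, Cardinal.prod_const,
    Cardinal.lift_id, Cardinal.mk_nat] at h1
  exact absurd h1 (not_le.2 (by rw [Cardinal.two_power_aleph0]; exact Cardinal.aleph0_lt_continuum))

end Data

end Pool.Agent.K7.H83.HR
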