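import Mathlib
import Pool.Agent.Helper114.Cycle
import Pool.Agent.K7.H83.HR.Abs

/-!
# Buried Julia components of rational maps with a Herman ring
-/

set_option autoImplicit false

open Set Filter Topology
open scoped OnePoint

namespace Pool.Agent.K7.H83.HR

open Pool.Agent.Helper114.Herman
open Pool.Agent.Helper114.RingIndex (An isOpen_An isPreconnected_An)

/-- Backward invariance of the Fatou set. -/
theorem fatou_back {f : OnePoint ℂ → OnePoint ℂ} (hf : Continuous f) {x : OnePoint ℂ}
    (hx : f x ∈ fatou f) : x ∈ fatou f := by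
  obtain ⟨U, hU, h⟩ := hx
  refine ⟨f ⁻¹' U, hf.continuousAt hU, ?_⟩
  intro y hy W hW
  have h1 := h (f y) hy W hW
  have h2 : ∀ᶠ z in 𝓝 y, ∀ n : ℕ, (f^[n] (f y), f^[n] (f z)) ∈ W := hf.continuousAt.eventually h1
  have h3 : ∀ᶠ z in 𝓝 y, (y, z) ∈ W := by
    have h4 : W ∈ 𝓝 (y, y) := by
      have : 𝓝 (y, y) ≤ 𝓝ˢ (diagonal (OnePoint ℂ)) := nhds_le_nhdsSet rfl
      exact this hW
    exact (Continuous.prodMk_right y).continuousAt h4
  filter_upwards [h2, h3] with z hz1 hz2 n
  cases n with
  | zero => exact hz2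
  | succ n => rw [Function.iterate_succ_apply, Function.iterate_succ_apply]; exact hz1 n

theorem fatou_back_it {f : OnePoint ℂ → OnePoint ℂ} (hf : Continuous f) {x : OnePoint ℂ} (n : ℕ)
    (hx : f^[n] x ∈ fatou f) : x ∈ fatou f := by
  induction n with
  | zero => exact hx
  | succ n ih =>
    rw [Function.iterate_succ_apply'] at hx
    exact ih (fatou_back hf hx)

theorem opn_it' {f : OnePoint ℂ → OnePoint ℂ} (hf : IsOpenMap f) (n : ℕ) : IsOpenMap f^[n] := by
  induction n with
  | zero => exact IsOpenMap.id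
  | succ n ih => rw [Function.iterate_succ']; exact hf.comp ih

/-- The data of the invariant core curve of a Herman ring. -/
theorem exists_data {f : OnePoint ℂ → OnePoint ℂ} {P Q : Polynomial ℂ} (hf : IsRat f P Q)
    (hd0 : 0 < max P.natDegree Q.natDegree) {H : Set (OnePoint ℂ)} (hH : IsHermanRing f H) :
    ∃ (p : ℕ) (γ : Set (OnePoint ℂ)) (D : Bool → Set (OnePoint ℂ)),
      Data f^[p] (fatou f) γ H D := by
  obtain ⟨⟨x0, hx0, hHx⟩, p, hp, hpH, θ, R0, φ0, hθ, hR0, hhol, hinj, himg, hconj⟩ := hH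
  set A : Set ℂ := An 1 R0 with hA
  have hAo : IsOpen A := isOpen_An _ _
  have hfo : IsOpenMap f := isOpenMap_rat hf hd0
  have hholA : ∀ z ∈ A, HolAt φ0 z := fun z hz => hhol z hz.1 hz.2
  have hinjA : InjOn φ0 A := hinj
  have himgA : φ0 '' A = H := himg
  set α : ℂ := Complex.exp (2 * Real.pi * Complex.I * θ) with hα
  have hαn : ‖α‖ = 1 := by
    have : α = Complex.exp (((2 * Real.pi * θ : ℝ) : ℂ) * Complex.I) := by
      rw [hα]; congr 1; push_cast; ring
    rw [this, Complex.norm_exp_ofReal_mul_I]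
  have hHF : H ⊆ fatou f := by rw [hHx]; exact connectedComponentIn_subset _ _
  have hHo : IsOpen H := by rw [hHx]; exact (isOpen_fatou f).connectedComponentIn
  have hHmax : ∀ T : Set (OnePoint ℂ), IsPreconnected T → T ⊆ fatou f → (T ∩ H).Nonempty → T ⊆ H := by
    rintro T hT hTF ⟨y, hyT, hyH⟩
    have h1 : y ∈ connectedComponentIn (fatou f) x0 := hHx ▸ hyH
    rw [hHx, connectedComponentIn_eq h1]
    exact hT.subset_connectedComponentIn hyT hTF
  have hHcl : ∀ y ∈ closure H, y ∈ fatou f → y ∈ H := by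
    intro y hy hyF
    have h1 : IsOpen (connectedComponentIn (fatou f) y) := (isOpen_fatou f).connectedComponentIn
    have h2 : y ∈ connectedComponentIn (fatou f) y := mem_connectedComponentIn hyF
    have h3 := mem_closure_iff.1 hy _ h1 h2
    exact hHmax _ isPreconnected_connectedComponentIn (connectedComponentIn_subset _ _) h3 h2
  obtain ⟨ρ, hρ1, hρR⟩ := exists_between hR0
  have hρ0 : 0 < ρ := by linarith
  have hρne : (ρ : ℂ) ≠ 0 := by exact_mod_cast hρ0.ne'
  have hnρ : ∀ z : ℂ, ‖(ρ : ℂ) * z‖ = ρ * ‖z‖ := by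
    intro z
    rw [norm_mul, Complex.norm_real, Real.norm_eq_abs, abs_of_pos hρ0]
  have hAn : ∀ z : ℂ, z ∈ An (1 / ρ) (R0 / ρ) ↔ (ρ : ℂ) * z ∈ A := by
    intro z
    change (1 / ρ < ‖z‖ ∧ ‖z‖ < R0 / ρ) ↔ (1 < ‖(ρ : ℂ) * z‖ ∧ ‖(ρ : ℂ) * z‖ < R0)
    rw [hnρ, div_lt_iff₀' hρ0, lt_div_iff₀' hρ0]
  set r : ℝ := 1 / ρ with hr
  set R : ℝ := R0 / ρ with hR
  set φ : ℂ → OnePoint ℂ := fun z => φ0 ((ρ : ℂ) * z) with hφ
  have himgAn : φ '' An r R = H := by
    rw [← himgA]
    ext x
    constructor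
    · rintro ⟨z, hz, rfl⟩
      exact ⟨_, (hAn z).1 hz, rfl⟩
    · rintro ⟨z, hz, rfl⟩
      refine ⟨(ρ : ℂ)⁻¹ * z, ?_, ?_⟩
      · rw [hAn, mul_inv_cancel_left₀ hρne]; exact hz
      · simp only [hφ, mul_inv_cancel_left₀ hρne]
  have hring : Ring r R φ := by
    refine ⟨by positivity, ?_, ?_, ?_, ?_⟩
    · rw [hr, div_lt_one hρ0]; exact hρ1
    · rw [hR, lt_div_iff₀ hρ0, one_mul]; exact hρR
    · intro z hz
      refine HolAt.comp_analytic (φ := φ0) (g := fun z => (ρ : ℂ) * z) ?_ ?_
      · exact hholA _ ((hAn z).1 hz)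
      · fun_prop
    · intro z hz w hw hzw
      exact mul_left_cancel₀ hρne (hinjA ((hAn z).1 hz) ((hAn w).1 hw) hzw)
  have hstep : ∀ z ∈ An r R, f^[p] (φ z) = φ (α * z) := by
    intro z hz
    have h1 := (hAn z).1 hz
    change f^[p] (φ0 (ρ * z)) = φ0 (ρ * (α * z))
    rw [hconj _ h1.1 h1.2]
    congr 1; ring
  have hrot : ∀ z, ‖α * z‖ = ‖z‖ := fun z => by rw [norm_mul, hαn, one_mul]
  have hcurveH : curve φ ⊆ H := by
    rw [← himgAn]
    exact image_mono hring.circle_sub
  have hmemcase : ∀ x ∈ H, ∀ e, x ∈ side r R φ e → ∃ z ∈ half r R e, φ z = x := by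
    intro x hx e hxe
    rw [← himgAn] at hx
    obtain ⟨z, hz, rfl⟩ := hx
    rcases Ring.An_cases hz with h1 | ⟨e', he'⟩
    · exact absurd ⟨z, h1, rfl⟩ (side_sub e hxe)
    · have h2 := hring.image_half_sub e' ⟨z, he', rfl⟩
      rcases Bool.eq_or_eq_not e' e with h3 | h3
      · exact ⟨z, h3 ▸ he', rfl⟩
      · exfalso
        subst h3
        have h4 := hring.side_disj
        cases e
        · exact Set.disjoint_left.1 h4 h2 hxe
        · exact Set.disjoint_left.1 h4 hxe h2
  have hsd : ∀ e, Disjoint (side r R φ e) (side r R φ (!e)) := by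
    intro e
    cases e
    · exact hring.side_disj.symm
    · exact hring.side_disj
  have hmon : ∀ e, ∀ V : Set (OnePoint ℂ), IsOpen V → ∀ x ∈ V, x ∉ fatou f →
      ∃ n, ∃ y ∈ V, (f^[p])^[n] y ∈ side r R φ e := by
    intro e V hV x hx hxF
    by_contra hcon
    push Not at hcon
    apply hxF
    refine subset_fatou hf hd0 hp hV (hring.isOpen_side e) (hring.isConnected_side e).nonempty ?_ hx
    intro n y hy
    rw [Function.iterate_mul]
    exact hcon n y hy
  have hjul : ∀ e, ∃ x, x ∉ fatou f ∧ x ∈ side r R φ e ∧ x ∈ closure H := by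
    intro e
    -- otherwise the side is contained in `H`
    by_contra hcon
    push Not at hcon
    have hsideH : side r R φ e ⊆ H := by
      intro x hx
      by_contra hxH
      obtain ⟨u, hu1, hu2, hu3⟩ := frontier_meets (U := side r R φ e) (E := H)
        (hring.isConnected_side e).isPreconnected hHo
        ⟨φ (pt r R e), hring.image_half_sub e ⟨_, hring.pt_mem e, rfl⟩,
          himgAn ▸ ⟨_, hring.half_sub e (hring.pt_mem e), rfl⟩⟩ (fun hh => hxH (hh hx))
      by_cases huF : u ∈ fatou f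
      · exact hu3 (hHcl u hu2 huF)
      · exact hcon u huF hu1 hu2
    -- compactness
    have hK : IsCompact (closure (side r R φ e)) := isClosed_closure.isCompact
    have hKH : closure (side r R φ e) ⊆ H := by
      rw [hring.closure_side e]
      exact union_subset hsideH hcurveH
    let S : ℝ → Set (OnePoint ℂ) := fun t => φ '' (An (r + t) (R - t))
    have hSo : ∀ t : {t : ℝ // 0 < t}, IsOpen (S t) := by
      intro t
      refine hring.isOpen_image (isOpen_An _ _) ?_
      intro z hz
      exact ⟨by linarith [hz.1, t.2], by linarith [hz.2, t.2]⟩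
    have hcov : closure (side r R φ e) ⊆ ⋃ t : {t : ℝ // 0 < t}, S t := by
      intro x hx
      have := hKH hx
      rw [← himgAn] at this
      obtain ⟨z, hz, rfl⟩ := this
      refine mem_iUnion.2 ⟨⟨min (‖z‖ - r) (R - ‖z‖) / 2, ?_⟩, z, ?_, rfl⟩
      · have h1 : 0 < ‖z‖ - r := by linarith [hz.1]
        have h2 : 0 < R - ‖z‖ := by linarith [hz.2]
        positivity
      · have h1 : 0 < ‖z‖ - r := by linarith [hz.1]
        have h2 : 0 < R - ‖z‖ := by linarith [hz.2]
        have h3 := min_le_left (‖z‖ - r) (R - ‖z‖)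
        have h4 := min_le_right (‖z‖ - r) (R - ‖z‖)
        have h5 : 0 < min (‖z‖ - r) (R - ‖z‖) := lt_min h1 h2
        constructor
        · change r + min (‖z‖ - r) (R - ‖z‖) / 2 < ‖z‖
          linarith
        · change ‖z‖ < R - min (‖z‖ - r) (R - ‖z‖) / 2
          linarith
    have hdir : Directed (· ⊆ ·) (fun t : {t : ℝ // 0 < t} => S t) := by
      intro s t
      refine ⟨⟨min s.1 t.1, lt_min s.2 t.2⟩, ?_, ?_⟩
      · apply image_mono
        intro z hz
        have := min_le_left s.1 t.1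
        exact ⟨by change r + min s.1 t.1 < ‖z‖; linarith [hz.1],
          by change ‖z‖ < R - min s.1 t.1; linarith [hz.2]⟩
      · apply image_mono
        intro z hz
        have := min_le_right s.1 t.1
        exact ⟨by change r + min s.1 t.1 < ‖z‖; linarith [hz.1],
          by change ‖z‖ < R - min s.1 t.1; linarith [hz.2]⟩
    haveI : Nonempty {t : ℝ // 0 < t} := ⟨⟨1, one_pos⟩⟩
    obtain ⟨⟨t, ht⟩, hts⟩ := hK.elim_directed_cover _ hSo hcov hdir
    -- a point of the half annulus near the end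
    have hr0 := hring.r0
    have hr1 := hring.r1
    have hR1 := hring.R1
    cases e with
    | true =>
      obtain ⟨s, hs1, hs2⟩ := exists_between (max_lt (show R - t < R by linarith) hR1)
      have hs3 : R - t < s := lt_of_le_of_lt (le_max_left _ _) hs1
      have hs4 : 1 < s := lt_of_le_of_lt (le_max_right _ _) hs1
      have hsn : ‖((s : ℝ) : ℂ)‖ = s := by
        rw [Complex.norm_real, Real.norm_eq_abs, abs_of_pos (by linarith)]
      have hsh : ((s : ℝ) : ℂ) ∈ half r R true := ⟨by rw [hsn]; exact hs4, by rw [hsn]; exact hs2⟩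
      have h1 := hts (subset_closure (hring.image_half_sub true ⟨_, hsh, rfl⟩))
      obtain ⟨z, hz, hzs⟩ := h1
      have h2 : z ∈ An r R := ⟨by linarith [hz.1], by linarith [hz.2]⟩
      have h3 := hring.inj h2 (hring.half_sub true hsh) hzs
      have h4 : ‖z‖ < R - t := hz.2
      rw [h3, hsn] at h4
      linarith
    | false =>
      obtain ⟨s, hs1, hs2⟩ := exists_between (lt_min (show r < r + t by linarith) hr1)
      have hs3 : s < r + t := lt_of_lt_of_le hs2 (min_le_left _ _)
      have hs4 : s < 1 := lt_of_lt_of_le hs2 (min_le_right _ _)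
      have hsn : ‖((s : ℝ) : ℂ)‖ = s := by
        rw [Complex.norm_real, Real.norm_eq_abs, abs_of_pos (by linarith)]
      have hsh : ((s : ℝ) : ℂ) ∈ half r R false := ⟨by rw [hsn]; exact hs1, by rw [hsn]; exact hs4⟩
      have h1 := hts (subset_closure (hring.image_half_sub false ⟨_, hsh, rfl⟩))
      obtain ⟨z, hz, hzs⟩ := h1
      have h2 : z ∈ An r R := ⟨by linarith [hz.1], by linarith [hz.2]⟩
      have h3 := hring.inj h2 (hring.half_sub false hsh) hzs
      have h4 : r + t < ‖z‖ := hz.1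
      rw [h3, hsn] at h4
      linarith
  refine ⟨p, curve φ, side r R φ, ?_⟩
  refine
    { cont := hf.cont.iterate p
      opn := opn_it' hfo p
      Fo := isOpen_fatou f
      Ff := fun x hx => fatou_iterate hfo hx p
      Fb := fun x hx => fatou_back_it hf.cont p hx
      Do := hring.isOpen_side
      Dp := fun e => (hring.isConnected_side e).isPreconnected
      Dd := hsd
      cov := fun x hx => hring.cover hx
      Dγ := fun e => side_disj_curve e
      gγ := ?_
      γH := hcurveH
      Ho := hHo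
      HF := hHF
      Hm := hHmax
      gH := fun x hx => hpH ▸ ⟨x, hx, rfl⟩
      gc := ?_
      jul := hjul
      montel := hmon }
  · rintro _ ⟨z, hz, rfl⟩
    have hz' : ‖z‖ = 1 := hz
    exact ⟨α * z, by change ‖α * z‖ = 1; rw [hrot, hz'], (hstep z (hring.circle_sub hz)).symm⟩
  · rintro e x ⟨hxH, hxD⟩
    obtain ⟨z, hz, rfl⟩ := hmemcase x hxH e hxD
    rw [hstep z (hring.half_sub e hz)]
    apply hring.image_half_sub e
    refine ⟨α * z, ?_, rfl⟩
    cases e with
    | true => exact ⟨by rw [hrot]; exact hz.1, by rw [hrot]; exact hz.2⟩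
    | false => exact ⟨by rw [hrot]; exact hz.1, by rw [hrot]; exact hz.2⟩

/-- A rational map with a Herman ring has uncountably many buried Julia components. -/
theorem buried_of_ring {f : OnePoint ℂ → OnePoint ℂ} {P Q : Polynomial ℂ} (hf : IsRat f P Q)
    (hd0 : 0 < max P.natDegree Q.natDegree) {H : Set (OnePoint ℂ)} (hH : IsHermanRing f H) :
    ¬ ({K : Set (OnePoint ℂ) | (∃ x, x ∉ fatou f ∧ K = connectedComponentIn (fatou f)ᶜ x) ∧
      ∀ U : Set (OnePoint ℂ), IsOpen U → IsPreconnected U → U ⊆ fatou f →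
        Disjoint K (closure U)}).Countable := by
  obtain ⟨p, γ, D, h⟩ := exists_data hf hd0 hH
  have : TopologicalSpace.SeparableSpace (OnePoint ℂ) := by
    obtain ⟨s, hs1, hs2⟩ := TopologicalSpace.exists_countable_dense ℂ
    exact ⟨⟨_, hs1.image _, OnePoint.denseRange_coe.dense_image OnePoint.continuous_coe hs2⟩⟩
  exact h.buried

end Pool.Agent.K7.H83.HR
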