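import Mathlib
import Pool.Agent.Helper114.Normal
import Pool.Agent.K7.H83.HR.Main

/-!
# Rational maps with a Herman ring have buried Julia components (MP_cf3138_an, Q1)

The Riemann sphere is `OnePoint ℂ`. The theorem `result` says: a rational map of degree at least
two which has a Herman ring has a buried Julia component, and even uncountably many of them.

Sketch of the proof. Let `H` be the Herman ring, `g = f^p` with `g(H) = H` a rotation, `γ ⊂ H` an
invariant core curve and `D₁`, `D₂` the two components of its complement. A *piece* is a component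
of some `g^{-n}(D_e)`; two pieces are nested or disjoint and `g^n` maps a piece of level `n` onto
its side. Since `g` maps the germ of `D_e` along `γ` to itself, a piece of type `D₂` which is
contained in `D₁` is disjoint from `H`, so it is compactly contained in `D₁`. By Montel's theorem
every neighbourhood of a Julia point has iterates meeting both sides; applied at a point of
`∂H ∩ D₁` outside a first piece this yields two disjoint pieces of `D₁` mapped onto `D₂`, and with a
piece of `D₂` mapped onto `D₁` two disjoint pieces `R_0, R_1` compactly contained in `D₁` which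
return onto `D₁`. So every itinerary `ω ∈ {0,1}^ℕ` is realised by a nonempty compact set `X_ω`, the
sets `X_ω` are pairwise disjoint and hence all but countably many have empty interior. If a Fatou
component `U` has a closure point in such an `X_ω`, it is not contained in all the nested pieces
around this point, hence meets the boundaries of two consecutive ones, which are mapped into `γ` at
two different times; the first image lies in `H`, and `g` preserves the sides of `γ` in `H`: a
contradiction. So `X_ω` consists of Julia points, contains the Julia components of its points, and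
these are buried.
-/

set_option autoImplicit false

open Set Filter Topology
open scoped OnePoint

namespace Pool.Agent.Results.MP_cf3138_an.BuriedComponents

/-- The inversion `z ↦ 1/z` of the Riemann sphere `OnePoint ℂ`. -/
noncomputable def inversion (x : OnePoint ℂ) : OnePoint ℂ :=
  x.elim ((0 : ℂ) : OnePoint ℂ) (fun z => if z = 0 then ∞ else ((z⁻¹ : ℂ) : OnePoint ℂ))

/-- `φ`, defined near `z ∈ ℂ` with values in the Riemann sphere, is holomorphic at `z`: near `z`
it is a holomorphic function, or `1/g` for a holomorphic function `g`. -/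
def HolomorphicAt (φ : ℂ → OnePoint ℂ) (z : ℂ) : Prop :=
  ∃ g : ℂ → ℂ, AnalyticAt ℂ g z ∧
    ((∀ᶠ w in 𝓝 z, φ w = (g w : OnePoint ℂ)) ∨
      (∀ᶠ w in 𝓝 z, φ w = inversion (g w : OnePoint ℂ)))

/-- `f` is the rational map `P / Q` of the Riemann sphere, written in lowest terms; its degree is
`max P.natDegree Q.natDegree`. -/
structure IsRational (f : OnePoint ℂ → OnePoint ℂ) (P Q : Polynomial ℂ) : Prop where
  continuous : Continuous f
  coprime : IsCoprime P Q
  denominator_ne_zero : Q ≠ 0
  eval : ∀ z : ℂ, Q.eval z ≠ 0 → f (z : OnePoint ℂ) = ((P.eval z / Q.eval z : ℂ) : OnePoint ℂ)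

/-- The iterates of `f` form a normal family on `U`: every sequence of iterates has a subsequence
that converges locally uniformly on `U` (the neighbourhoods of the diagonal are the entourages of
the uniform structure of the compact space `OnePoint ℂ`). -/
def NormalOn (f : OnePoint ℂ → OnePoint ℂ) (U : Set (OnePoint ℂ)) : Prop :=
  ∀ n : ℕ → ℕ, ∃ k : ℕ → ℕ, StrictMono k ∧ ∃ g : OnePoint ℂ → OnePoint ℂ,
    ∀ W ∈ 𝓝ˢ (diagonal (OnePoint ℂ)), ∀ y ∈ U, ∃ V ∈ 𝓝 y, ∀ᶠ j in atTop, ∀ z ∈ V ∩ U,
      (g z, f^[n (k j)] z) ∈ W

/-- The Fatou set: the points with an open neighbourhood on which the iterates form a normal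
family. -/
def fatouSet (f : OnePoint ℂ → OnePoint ℂ) : Set (OnePoint ℂ) :=
  {x | ∃ U : Set (OnePoint ℂ), IsOpen U ∧ x ∈ U ∧ NormalOn f U}

/-- The Julia set, the complement of the Fatou set. -/
def juliaSet (f : OnePoint ℂ → OnePoint ℂ) : Set (OnePoint ℂ) := (fatouSet f)ᶜ

/-- `U` is a Fatou component: a connected component of the Fatou set. -/
def IsFatouComponent (f : OnePoint ℂ → OnePoint ℂ) (U : Set (OnePoint ℂ)) : Prop :=
  ∃ x ∈ fatouSet f, U = connectedComponentIn (fatouSet f) x

/-- `K` is a Julia component: a connected component of the Julia set. -/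
def IsJuliaComponent (f : OnePoint ℂ → OnePoint ℂ) (K : Set (OnePoint ℂ)) : Prop :=
  ∃ x ∈ juliaSet f, K = connectedComponentIn (juliaSet f) x

/-- `K` is a buried Julia component: it does not meet the boundary of any Fatou component. -/
def IsBuried (f : OnePoint ℂ → OnePoint ℂ) (K : Set (OnePoint ℂ)) : Prop :=
  IsJuliaComponent f K ∧ ∀ U : Set (OnePoint ℂ), IsFatouComponent f U → K ∩ frontier U = ∅

/-- `H` is a Herman ring of `f`: a Fatou component with `f^p(H) = H` for some `p ≥ 1`,
on which `f^p` is conformally conjugate to an irrational rotation `z ↦ exp(2πiθ) z` of a round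
annulus `{1 < |z| < R}`, `R > 1`. -/
def IsHermanRing (f : OnePoint ℂ → OnePoint ℂ) (H : Set (OnePoint ℂ)) : Prop :=
  IsFatouComponent f H ∧
  ∃ p : ℕ, 0 < p ∧ f^[p] '' H = H ∧
    ∃ (θ R : ℝ) (φ : ℂ → OnePoint ℂ), Irrational θ ∧ 1 < R ∧
      (∀ z : ℂ, 1 < ‖z‖ → ‖z‖ < R → HolomorphicAt φ z) ∧
      InjOn φ {z | 1 < ‖z‖ ∧ ‖z‖ < R} ∧
      φ '' {z | 1 < ‖z‖ ∧ ‖z‖ < R} = H ∧
      ∀ z : ℂ, 1 < ‖z‖ → ‖z‖ < R →
        f^[p] (φ z) = φ (Complex.exp (2 * Real.pi * Complex.I * θ) * z)

/-- Normality agrees with equicontinuity. -/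
theorem fatouSet_eq {f : OnePoint ℂ → OnePoint ℂ} (hf : Continuous f) :
    fatouSet f = Pool.Agent.Helper114.Herman.fatou f := by
  ext x
  constructor
  · rintro ⟨U, hU, hxU, hn⟩
    exact ⟨U, hU.mem_nhds hxU,
      (Pool.Agent.Helper114.Normal.equicontinuous_iff_normal f hf hU).2 hn⟩
  · rintro ⟨U, hU, h⟩
    refine ⟨interior U, isOpen_interior, mem_interior_iff_mem_nhds.2 hU, ?_⟩
    exact (Pool.Agent.Helper114.Normal.equicontinuous_iff_normal f hf isOpen_interior).1
      fun y hy => h y (interior_subset hy)

/-- A rational map of degree at least two with a Herman ring has a buried Julia component, and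
even uncountably many buried Julia components. -/
theorem result (f : OnePoint ℂ → OnePoint ℂ) (P Q : Polynomial ℂ) (hf : IsRational f P Q)
    (hdeg : 2 ≤ max P.natDegree Q.natDegree) (hH : ∃ H : Set (OnePoint ℂ), IsHermanRing f H) :
    (∃ K : Set (OnePoint ℂ), IsBuried f K) ∧
      ¬ {K : Set (OnePoint ℂ) | IsBuried f K}.Countable := by
  obtain ⟨H, ⟨x, hx, hHx⟩, hH⟩ := hH
  have hf' : Pool.Agent.Helper114.Herman.IsRat f P Q :=
    ⟨hf.continuous, hf.coprime, hf.denominator_ne_zero, hf.eval⟩
  have heq := fatouSet_eq hf.continuous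
  have hd0 : 0 < max P.natDegree Q.natDegree := by omega
  have hmain := Pool.Agent.K7.H83.HR.buried_of_ring hf' hd0 (H := H)
    ⟨⟨x, heq ▸ hx, by rw [hHx, heq]⟩, hH⟩
  have hsub : {K : Set (OnePoint ℂ) |
      (∃ x, x ∉ Pool.Agent.Helper114.Herman.fatou f ∧
        K = connectedComponentIn (Pool.Agent.Helper114.Herman.fatou f)ᶜ x) ∧
      ∀ U : Set (OnePoint ℂ), IsOpen U → IsPreconnected U →
        U ⊆ Pool.Agent.Helper114.Herman.fatou f → Disjoint K (closure U)} ⊆
      {K : Set (OnePoint ℂ) | IsBuried f K} := by
    rintro K ⟨⟨y, hy, hK⟩, hU⟩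
    refine ⟨⟨y, ?_, ?_⟩, ?_⟩
    · rw [juliaSet, heq]; exact hy
    · rw [juliaSet, heq]; exact hK
    · rintro U ⟨u, -, rfl⟩
      have ho : IsOpen (fatouSet f) := by
        rw [heq]; exact Pool.Agent.Helper114.Herman.isOpen_fatou f
      have h1 := hU (connectedComponentIn (fatouSet f) u) ho.connectedComponentIn
        isPreconnected_connectedComponentIn
        (by rw [← heq]; exact connectedComponentIn_subset _ _)
      exact disjoint_iff_inter_eq_empty.1 (h1.mono_right frontier_subset_closure)
  have hunc : ¬ {K : Set (OnePoint ℂ) | IsBuried f K}.Countable := fun hc => hmain (hc.mono hsub)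
  refine ⟨?_, hunc⟩
  by_contra hcon
  push Not at hcon
  apply hunc
  have : {K : Set (OnePoint ℂ) | IsBuried f K} = ∅ := by
    ext K
    simp only [mem_ofPred_eq, mem_empty_iff_false, iff_false]
    exact hcon K
  rw [this]
  exact countable_empty

end Pool.Agent.Results.MP_cf3138_an.BuriedComponents
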